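import Pool.Agent.H56.ER2.Targets

/-!
# Row PPX of `er2_modules` (helper63)

A hat with a path to the hole is a corner of a prism.
-/

set_option autoImplicit false

namespace Pool.Agent.H63.ER2

open Pool.Agent.H48.ER Pool.Agent.H52.ER2 Pool.Agent.H66.ER2 Pool.Agent.H56.ER2

variable {V : Type}

/-- a pyramid given by three explicit paths -/
theorem pyr3 (hPYR : T_PYR) {G : SimpleGraph V} (hG : NOH G) {p b1 b2 b3 : V} {m1 m2 m3 : ℕ}
    {R1 R2 R3 : Set V} (p1 : IP G m1 p b1 R1) (p2 : IP G m2 p b2 R2) (p3 : IP G m3 p b3 R3)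
    (o1 : 1 ≤ m1) (o2 : 1 ≤ m2) (o3 : 1 ≤ m3) (n12 : ¬ (m1 = 1 ∧ m2 = 1))
    (n13 : ¬ (m1 = 1 ∧ m3 = 1)) (n23 : ¬ (m2 = 1 ∧ m3 = 1))
    (x12 : ∀ u ∈ R1, ∀ w ∈ R2, u ≠ p → w ≠ p → u ≠ w ∧ (G.Adj u w ↔ u = b1 ∧ w = b2))
    (x13 : ∀ u ∈ R1, ∀ w ∈ R3, u ≠ p → w ≠ p → u ≠ w ∧ (G.Adj u w ↔ u = b1 ∧ w = b3))
    (x23 : ∀ u ∈ R2, ∀ w ∈ R3, u ≠ p → w ≠ p → u ≠ w ∧ (G.Adj u w ↔ u = b2 ∧ w = b3)) :
    False := by
  have sw : ∀ {A B : Set V} {x z : V},
      (∀ u ∈ A, ∀ w ∈ B, u ≠ p → w ≠ p → u ≠ w ∧ (G.Adj u w ↔ u = x ∧ w = z)) →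
      ∀ u ∈ B, ∀ w ∈ A, u ≠ p → w ≠ p → u ≠ w ∧ (G.Adj u w ↔ u = z ∧ w = x) := by
    intro A B x z h u hu w hw hup hwp
    obtain ⟨h1, h2⟩ := h w hw u hu hwp hup
    refine ⟨h1.symm, ?_⟩
    rw [SimpleGraph.adj_comm, h2]
    exact and_comm
  have x21 := sw x12
  have x31 := sw x13
  have x32 := sw x23
  refine hPYR V G p ![b1, b2, b3] ![m1, m2, m3] ![R1, R2, R3] hG ?_ ?_ ?_ ?_
  · intro i
    fin_cases i
    · exact p1
    · exact p2
    · exact p3
  · intro i
    fin_cases i
    · exact o1
    · exact o2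
    · exact o3
  · intro i j hij
    fin_cases i <;> fin_cases j <;>
      first
        | exact absurd rfl hij
        | exact n12
        | exact n13
        | exact n23
        | exact fun h => n12 ⟨h.2, h.1⟩
        | exact fun h => n13 ⟨h.2, h.1⟩
        | exact fun h => n23 ⟨h.2, h.1⟩
  · intro i j hij
    fin_cases i <;> fin_cases j <;>
      first
        | exact absurd rfl hij
        | exact x12
        | exact x13
        | exact x23
        | exact x21
        | exact x31
        | exact x32

/-- (PPX) -/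
theorem pf_PPX (hTRI : T_TRI) (hPYR : T_PYR) : T_PPX := by
  intro V G v c c' s t d y r k R T hG hR hr hcR hcR' hcc hcs hct hvR hvc hvc' hvn hT hdis hvT hcT
    hcT' hTc hvd hTy
  have hyT : y ∈ T := hT.right_mem
  have hyR : y ∉ R := fun h => Set.disjoint_left.1 hdis hyT h
  have hsR : s ∈ R := hR.left_mem
  have htR : t ∈ R := hR.right_mem
  have hTR : ∀ u ∈ T, ∀ w ∈ R, G.Adj u w → u = y := fun u hu w hw h => (hTy u hu).1 ⟨w, hw, h⟩
  have hne : ∀ u ∈ T, ∀ w ∈ R, u ≠ w := fun u hu w hw h =>
    Set.disjoint_left.1 hdis hu (h ▸ hw)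
  have hp0 : IP G (k + 1) v y (insert v T) := hT.cons hvT hvd
  have hyv : y ≠ v := fun h => hvT (h ▸ hyT)
  have hyc : y ≠ c := fun h => hcT (h ▸ hyT)
  have hyc' : y ≠ c' := fun h => hcT' (h ▸ hyT)
  have hRc : ∀ w ∈ R, w ≠ c := fun w hw h => hcR (h ▸ hw)
  have hRc' : ∀ w ∈ R, w ≠ c' := fun w hw h => hcR' (h ▸ hw)
  have hRv : ∀ w ∈ R, w ≠ v := fun w hw h => hvR (h ▸ hw)
  have hTc1 : ∀ w ∈ T, w ≠ c := fun w hw h => hcT (h ▸ hw)
  have hTc2 : ∀ w ∈ T, w ≠ c' := fun w hw h => hcT' (h ▸ hw)
  have hTv : ∀ w ∈ T, w ≠ v := fun w hw h => hvT (h ▸ hw)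
  rcases hTRI V G r s t y R hR hyR ((hTy y hyT).2 rfl) with ⟨g, h⟩ | ⟨g, g', h⟩ | ⟨g, g', h⟩
  · -- one neighbour: pyramid with apex `g`
    exfalso
    obtain ⟨i, j, R1, R2, q1, q2, hij, hU, hI, hN, hyg⟩ := h
    have hR1 : R1 ⊆ R := fun w hw => hU ▸ Or.inl hw
    have hR2 : R2 ⊆ R := fun w hw => hU ▸ Or.inr hw
    have hgR : g ∈ R := hR1 q1.right_mem
    have hs1 : s ∈ R1 := q1.left_mem
    have ht2 : t ∈ R2 := q2.right_mem
    have hmeet : ∀ w, w ∈ R1 → w ∈ R2 → w = g := fun w h1 h2 => by
      have : w ∈ R1 ∩ R2 := ⟨h1, h2⟩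
      rw [hI] at this
      exact this
    have a0 : IP G (k + 1 + 1) v g (insert g (insert v T)) := by
      refine hp0.snoc ?_ ?_
      · rintro (h | h)
        · exact hRv g hgR h
        · exact hne g h g hgR rfl
      · rintro w (rfl | hw)
        · constructor
          · intro h
            exact absurd h.symm (hvn g hgR)
          · intro h
            exact absurd h.symm hyv
        · constructor
          · intro h
            exact hTR w hw g hgR h.symm
          · intro h
            rw [h]
            exact ((hyg g hgR).2 rfl).symm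
    have a1 : IP G (i + 1) g c (insert c R1) := by
      refine q1.rev.snoc (fun h => hcR (hR1 h)) ?_
      intro w hw
      exact hcs w (hR1 hw)
    have a2 : IP G (j + 1) g c' (insert c' R2) := by
      refine q2.snoc (fun h => hcR' (hR2 h)) ?_
      intro w hw
      exact hct w (hR2 hw)
    refine pyr3 hPYR hG a0.rev a1 a2 (by omega) (by omega) (by omega) (by omega) (by omega)
      (by omega) ?_ ?_ ?_
    · rintro u hu w hw hug hwg
      have hu' : u = v ∨ u ∈ T := by
        rcases hu with h | h
        · exact absurd h hug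
        · exact h
      rcases hu' with rfl | hu'
      · rcases hw with rfl | hw
        · exact ⟨hvc.ne, ⟨fun _ => ⟨rfl, rfl⟩, fun _ => hvc⟩⟩
        · refine ⟨(hRv w (hR1 hw)).symm, ⟨fun h => absurd h (hvn w (hR1 hw)), fun h => ?_⟩⟩
          exact absurd h.2 (hRc w (hR1 hw))
      · rcases hw with rfl | hw
        · exact ⟨hTc1 u hu', ⟨fun h => absurd h (hTc u hu').1, fun h => absurd h.1 (hTv u hu')⟩⟩
        · refine ⟨hne u hu' w (hR1 hw), ⟨fun h => ?_, fun h => absurd h.1 (hTv u hu')⟩⟩
          have e := hTR u hu' w (hR1 hw) h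
          rw [e] at h
          exact absurd ((hyg w (hR1 hw)).1 h) hwg
    · rintro u hu w hw hug hwg
      have hu' : u = v ∨ u ∈ T := by
        rcases hu with h | h
        · exact absurd h hug
        · exact h
      rcases hu' with rfl | hu'
      · rcases hw with rfl | hw
        · exact ⟨hvc'.ne, ⟨fun _ => ⟨rfl, rfl⟩, fun _ => hvc'⟩⟩
        · refine ⟨(hRv w (hR2 hw)).symm, ⟨fun h => absurd h (hvn w (hR2 hw)), fun h => ?_⟩⟩
          exact absurd h.2 (hRc' w (hR2 hw))
      · rcases hw with rfl | hw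
        · exact ⟨hTc2 u hu', ⟨fun h => absurd h (hTc u hu').2, fun h => absurd h.1 (hTv u hu')⟩⟩
        · refine ⟨hne u hu' w (hR2 hw), ⟨fun h => ?_, fun h => absurd h.1 (hTv u hu')⟩⟩
          have e := hTR u hu' w (hR2 hw) h
          rw [e] at h
          exact absurd ((hyg w (hR2 hw)).1 h) hwg
    · rintro u hu w hw hug hwg
      rcases hu with rfl | hu
      · rcases hw with rfl | hw
        · exact ⟨hcc.ne, ⟨fun _ => ⟨rfl, rfl⟩, fun _ => hcc⟩⟩
        · refine ⟨(hRc w (hR2 hw)).symm, ⟨fun h => ?_, fun h => absurd h.2 (hRc' w (hR2 hw))⟩⟩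
          have e := (hcs w (hR2 hw)).1 h
          exact absurd (hmeet w (e ▸ hs1) hw) hwg
      · rcases hw with rfl | hw
        · refine ⟨hRc' u (hR1 hu), ⟨fun h => ?_, fun h => absurd h.1 (hRc u (hR1 hu))⟩⟩
          have e := (hct u (hR1 hu)).1 h.symm
          exact absurd (hmeet u hu (e ▸ ht2)) hug
        · refine ⟨fun h => hug (hmeet u hu (h ▸ hw)), ⟨fun h => ?_, fun h => absurd h.1
            (hRc u (hR1 hu))⟩⟩
          exact absurd h (hN u ⟨hu, hug⟩ w ⟨hw, hwg⟩)
  · -- two adjacent neighbours: prism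
    obtain ⟨i, j, R1, R2, q1, q2, hij, hU, hD, hX, hyg⟩ := h
    have hR1 : R1 ⊆ R := fun w hw => hU ▸ Or.inl hw
    have hR2 : R2 ⊆ R := fun w hw => hU ▸ Or.inr hw
    have hg1 : g ∈ R1 := q1.right_mem
    have hg2 : g' ∈ R2 := q2.left_mem
    have hs1 : s ∈ R1 := q1.left_mem
    have ht2 : t ∈ R2 := q2.right_mem
    have hD' : ∀ w, w ∈ R1 → w ∈ R2 → False := fun w h1 h2 => Set.disjoint_left.1 hD h1 h2
    have a1 : IP G (i + 1) c g (insert c R1) :=
      q1.cons (fun h => hcR (hR1 h)) (fun w hw => hcs w (hR1 hw))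
    have a2 : IP G (j + 1) c' g' (insert c' R2) :=
      q2.rev.cons (fun h => hcR' (hR2 h)) (fun w hw => hct w (hR2 hw))
    refine ⟨![v, c, c'], ![y, g, g'], ![k + 1, i + 1, j + 1],
      ![insert v T, insert c R1, insert c' R2], ?_, rfl, rfl, rfl, rfl, ?_⟩
    · refine mk3 hp0 a1 a2 (by omega) (by omega) (by omega) ?_ ?_ ?_ ?_ ?_ ?_
      · rw [Set.disjoint_left]
        rintro u (rfl | hu) (h | h)
        · exact hvc.ne h
        · exact hvR (hR1 h)
        · exact hTc1 u hu h
        · exact hne u hu u (hR1 h) rfl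
      · rw [Set.disjoint_left]
        rintro u (rfl | hu) (h | h)
        · exact hvc'.ne h
        · exact hvR (hR2 h)
        · exact hTc2 u hu h
        · exact hne u hu u (hR2 h) rfl
      · rw [Set.disjoint_left]
        rintro u (rfl | hu) (h | h)
        · exact hcc.ne h
        · exact hcR (hR2 h)
        · exact hRc' u (hR1 hu) h
        · exact hD' u hu h
      · rintro u (rfl | hu) w (rfl | hw)
        · exact ⟨fun _ => Or.inl ⟨rfl, rfl⟩, fun _ => hvc⟩
        · constructor
          · intro h
            exact absurd h (hvn w (hR1 hw))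
          · rintro (h | h)
            · exact absurd h.2 (hRc w (hR1 hw))
            · exact absurd h.1.symm hyv
        · constructor
          · intro h
            exact absurd h (hTc u hu).1
          · rintro (h | h)
            · exact absurd h.1 (hTv u hu)
            · exact absurd h.2.symm (hRc g (hR1 hg1))
        · constructor
          · intro h
            have e := hTR u hu w (hR1 hw) h
            rw [e] at h
            rcases (hyg w (hR1 hw)).1 h with h' | h'
            · exact Or.inr ⟨e, h'⟩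
            · exact absurd (h' ▸ hg2) (fun h'' => hD' w hw h'')
          · rintro (h | h)
            · exact absurd h.1 (hTv u hu)
            · rw [h.1, h.2]
              exact (hyg g (hR1 hg1)).2 (Or.inl rfl)
      · rintro u (rfl | hu) w (rfl | hw)
        · exact ⟨fun _ => Or.inl ⟨rfl, rfl⟩, fun _ => hvc'⟩
        · constructor
          · intro h
            exact absurd h (hvn w (hR2 hw))
          · rintro (h | h)
            · exact absurd h.2 (hRc' w (hR2 hw))
            · exact absurd h.1.symm hyv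
        · constructor
          · intro h
            exact absurd h (hTc u hu).2
          · rintro (h | h)
            · exact absurd h.1 (hTv u hu)
            · exact absurd h.2.symm (hRc' g' (hR2 hg2))
        · constructor
          · intro h
            have e := hTR u hu w (hR2 hw) h
            rw [e] at h
            rcases (hyg w (hR2 hw)).1 h with h' | h'
            · exact absurd (h' ▸ hg1) (fun h'' => hD' w h'' hw)
            · exact Or.inr ⟨e, h'⟩
          · rintro (h | h)
            · exact absurd h.1 (hTv u hu)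
            · rw [h.1, h.2]
              exact (hyg g' (hR2 hg2)).2 (Or.inr rfl)
      · rintro u (rfl | hu) w (rfl | hw)
        · exact ⟨fun _ => Or.inl ⟨rfl, rfl⟩, fun _ => hcc⟩
        · constructor
          · intro h
            have e := (hcs w (hR2 hw)).1 h
            exact absurd hw (fun h' => hD' s hs1 (e ▸ h'))
          · rintro (h | h)
            · exact absurd h.2 (hRc' w (hR2 hw))
            · exact absurd h.1.symm (hRc g (hR1 hg1))
        · constructor
          · intro h
            have e := (hct u (hR1 hu)).1 h.symm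
            exact absurd hu (fun h' => hD' t (e ▸ h') ht2)
          · rintro (h | h)
            · exact absurd h.1 (hRc u (hR1 hu))
            · exact absurd h.2.symm (hRc' g' (hR2 hg2))
        · rw [hX u hu w hw]
          constructor
          · intro h
            exact Or.inr h
          · rintro (h | h)
            · exact absurd h.1 (hRc u (hR1 hu))
            · exact h
    · show insert c R1 ∪ insert c' R2 = insert c (insert c' R)
      rw [← hU]
      ext w
      constructor
      · rintro ((h | h) | (h | h))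
        · exact Or.inl h
        · exact Or.inr (Or.inr (Or.inl h))
        · exact Or.inr (Or.inl h)
        · exact Or.inr (Or.inr (Or.inr h))
      · rintro (h | h | h | h)
        · exact Or.inl (Or.inl h)
        · exact Or.inr (Or.inl h)
        · exact Or.inl (Or.inr h)
        · exact Or.inr (Or.inr h)
  · -- two nonadjacent neighbours: pyramid with apex `y`
    exfalso
    obtain ⟨i, j, R1, R2, q1, q2, hij, hR1, hR2, hD, hN, hy1, hy2⟩ := h
    have hs1 : s ∈ R1 := q1.left_mem
    have ht2 : t ∈ R2 := q2.right_mem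
    have hD' : ∀ w, w ∈ R1 → w ∈ R2 → False := fun w h1 h2 => Set.disjoint_left.1 hD h1 h2
    have a1 : IP G (i + 1 + 1) y c (insert c (insert y R1)) := by
      have b1 : IP G (i + 1) y s (insert y R1) := q1.rev.cons (fun h => hyR (hR1 h)) hy1
      refine b1.snoc ?_ ?_
      · rintro (h | h)
        · exact hyc h.symm
        · exact hcR (hR1 h)
      · rintro w (rfl | hw)
        · constructor
          · intro h
            exact absurd h.symm (hTc w hyT).1
          · intro h
            exact absurd (h ▸ hsR) hyR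
        · exact hcs w (hR1 hw)
    have a2 : IP G (j + 1 + 1) y c' (insert c' (insert y R2)) := by
      have b1 : IP G (j + 1) y t (insert y R2) := q2.cons (fun h => hyR (hR2 h)) hy2
      refine b1.snoc ?_ ?_
      · rintro (h | h)
        · exact hyc' h.symm
        · exact hcR' (hR2 h)
      · rintro w (rfl | hw)
        · constructor
          · intro h
            exact absurd h.symm (hTc w hyT).2
          · intro h
            exact absurd (h ▸ htR) hyR
        · exact hct w (hR2 hw)
    refine pyr3 hPYR hG hp0.rev a1 a2 (by omega) (by omega) (by omega) (by omega) (by omega)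
      (by omega) ?_ ?_ ?_
    · rintro u hu w hw huy hwy
      have hw' : w = c ∨ w ∈ R1 := by
        rcases hw with h | h | h
        · exact Or.inl h
        · exact absurd h hwy
        · exact Or.inr h
      rcases hu with rfl | hu
      · rcases hw' with rfl | hw'
        · exact ⟨hvc.ne, ⟨fun _ => ⟨rfl, rfl⟩, fun _ => hvc⟩⟩
        · exact ⟨(hRv w (hR1 hw')).symm, ⟨fun h => absurd h (hvn w (hR1 hw')), fun h =>
            absurd h.2 (hRc w (hR1 hw'))⟩⟩
      · rcases hw' with rfl | hw'
        · exact ⟨hTc1 u hu, ⟨fun h => absurd h (hTc u hu).1, fun h => absurd h.1 (hTv u hu)⟩⟩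
        · exact ⟨hne u hu w (hR1 hw'), ⟨fun h => absurd (hTR u hu w (hR1 hw') h) huy, fun h =>
            absurd h.1 (hTv u hu)⟩⟩
    · rintro u hu w hw huy hwy
      have hw' : w = c' ∨ w ∈ R2 := by
        rcases hw with h | h | h
        · exact Or.inl h
        · exact absurd h hwy
        · exact Or.inr h
      rcases hu with rfl | hu
      · rcases hw' with rfl | hw'
        · exact ⟨hvc'.ne, ⟨fun _ => ⟨rfl, rfl⟩, fun _ => hvc'⟩⟩
        · exact ⟨(hRv w (hR2 hw')).symm, ⟨fun h => absurd h (hvn w (hR2 hw')), fun h =>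
            absurd h.2 (hRc' w (hR2 hw'))⟩⟩
      · rcases hw' with rfl | hw'
        · exact ⟨hTc2 u hu, ⟨fun h => absurd h (hTc u hu).2, fun h => absurd h.1 (hTv u hu)⟩⟩
        · exact ⟨hne u hu w (hR2 hw'), ⟨fun h => absurd (hTR u hu w (hR2 hw') h) huy, fun h =>
            absurd h.1 (hTv u hu)⟩⟩
    · rintro u hu w hw huy hwy
      have hu' : u = c ∨ u ∈ R1 := by
        rcases hu with h | h | h
        · exact Or.inl h
        · exact absurd h huy
        · exact Or.inr h
      have hw' : w = c' ∨ w ∈ R2 := by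
        rcases hw with h | h | h
        · exact Or.inl h
        · exact absurd h hwy
        · exact Or.inr h
      rcases hu' with rfl | hu'
      · rcases hw' with rfl | hw'
        · exact ⟨hcc.ne, ⟨fun _ => ⟨rfl, rfl⟩, fun _ => hcc⟩⟩
        · refine ⟨(hRc w (hR2 hw')).symm, ⟨fun h => ?_, fun h => absurd h.2 (hRc' w (hR2 hw'))⟩⟩
          have e := (hcs w (hR2 hw')).1 h
          exact absurd hw' (fun h' => hD' s hs1 (e ▸ h'))
      · rcases hw' with rfl | hw'
        · refine ⟨hRc' u (hR1 hu'), ⟨fun h => ?_, fun h => absurd h.1 (hRc u (hR1 hu'))⟩⟩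
          have e := (hct u (hR1 hu')).1 h.symm
          exact absurd hu' (fun h' => hD' t (e ▸ h') ht2)
        · refine ⟨fun h => hD' u hu' (h ▸ hw'), ⟨fun h => ?_, fun h => absurd h.1
            (hRc u (hR1 hu'))⟩⟩
          exact absurd h (hN u hu' w hw')

end Pool.Agent.H63.ER2
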